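import Pool.Agent.Lib_MP_7f70a7_al.Main

/-!
Transfer of the theorem on solvable groups to groups in any universe and without the assumption of
finite generation.
-/

set_option autoImplicit false

open scoped Pointwise

namespace Pool.Agent.RatIns

universe u

/-- The family of rational subsets of a group `G`: the intersection of all families of subsets of
`G` which contain the finite subsets and are closed under union, product and generated
submonoid. -/
def Rat (G : Type u) [Group G] : Set (Set G) :=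
  {A | ∀ F : Set (Set G), (∀ B : Set G, B.Finite → B ∈ F) → (∀ B ∈ F, ∀ C ∈ F, B ∪ C ∈ F) →
    (∀ B ∈ F, ∀ C ∈ F, B * C ∈ F) → (∀ B ∈ F, (Submonoid.closure B : Set G) ∈ F) → A ∈ F}

variable {G : Type u} [Group G]

theorem Rat.finite {A : Set G} (h : A.Finite) : A ∈ Rat G := fun _ h1 _ _ _ => h1 A h

theorem Rat.union {A B : Set G} (hA : A ∈ Rat G) (hB : B ∈ Rat G) : A ∪ B ∈ Rat G :=
  fun F h1 h2 h3 h4 => h2 _ (hA F h1 h2 h3 h4) _ (hB F h1 h2 h3 h4)

theorem Rat.mul {A B : Set G} (hA : A ∈ Rat G) (hB : B ∈ Rat G) : A * B ∈ Rat G :=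
  fun F h1 h2 h3 h4 => h3 _ (hA F h1 h2 h3 h4) _ (hB F h1 h2 h3 h4)

theorem Rat.star {A : Set G} (hA : A ∈ Rat G) : (Submonoid.closure A : Set G) ∈ Rat G :=
  fun F h1 h2 h3 h4 => h4 _ (hA F h1 h2 h3 h4)

/-- A rational subset lies in a finitely generated subgroup. -/
theorem sub_fg {A : Set G} (hA : A ∈ Rat G) :
    ∃ S : Set G, S.Finite ∧ A ⊆ (Subgroup.closure S : Set G) := by
  refine hA {A | ∃ S : Set G, S.Finite ∧ A ⊆ (Subgroup.closure S : Set G)} ?_ ?_ ?_ ?_
  · intro B hB
    exact ⟨B, hB, Subgroup.subset_closure⟩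
  · rintro B ⟨S, hS, hBS⟩ C ⟨T, hT, hCT⟩
    refine ⟨S ∪ T, hS.union hT, ?_⟩
    rintro x (hx | hx)
    · exact Subgroup.closure_mono Set.subset_union_left (hBS hx)
    · exact Subgroup.closure_mono Set.subset_union_right (hCT hx)
  · rintro B ⟨S, hS, hBS⟩ C ⟨T, hT, hCT⟩
    refine ⟨S ∪ T, hS.union hT, ?_⟩
    rintro _ ⟨x, hx, y, hy, rfl⟩
    exact mul_mem (Subgroup.closure_mono Set.subset_union_left (hBS hx))
      (Subgroup.closure_mono Set.subset_union_right (hCT hy))
  · rintro B ⟨S, hS, hBS⟩
    refine ⟨S, hS, ?_⟩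
    intro x hx
    have h : Submonoid.closure B ≤ (Subgroup.closure S).toSubmonoid :=
      (Submonoid.closure_le).mpr hBS
    exact h hx

theorem fg_of {G : Type u} [Group G] (h : ∀ A ∈ Rat G, Aᶜ ∈ Rat G) : Group.FG G := by
  obtain ⟨S, hS, hu⟩ := sub_fg (h ∅ (Rat.finite Set.finite_empty))
  refine Group.fg_iff.mpr ⟨S, ?_, hS⟩
  rw [eq_top_iff]
  intro x _
  exact hu (by simp)

open Pool.Agent.RatBool in
theorem to_ratSet {H : Type} [Group H] (e : G ≃* H) {A : Set G} (hA : A ∈ Rat G) :
    RatSet (e.symm ⁻¹' A) := by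
  refine hA {A | RatSet (e.symm ⁻¹' A)} ?_ ?_ ?_ ?_
  · intro B hB
    exact RatSet.finite (hB.preimage e.symm.injective.injOn)
  · intro B hB C hC
    exact RatSet.union hB hC
  · intro B hB C hC
    have h : e.symm ⁻¹' (B * C) = (e.symm ⁻¹' B) * (e.symm ⁻¹' C) := by
      ext x
      constructor
      · rintro ⟨b, hb, c, hc, hx⟩
        refine ⟨e b, by simpa using hb, e c, by simpa using hc, ?_⟩
        have hx' : b * c = e.symm x := hx
        show e b * e c = x
        rw [← map_mul, hx', MulEquiv.apply_symm_apply]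
      · rintro ⟨b, hb, c, hc, rfl⟩
        exact ⟨e.symm b, hb, e.symm c, hc, (map_mul e.symm b c).symm⟩
    show RatSet (e.symm ⁻¹' (B * C))
    rw [h]
    exact RatSet.mul hB hC
  · intro B hB
    have h : e.symm ⁻¹' (Submonoid.closure B : Set G) =
        (Submonoid.closure (e.symm ⁻¹' B) : Set H) := by
      have h1 := Submonoid.map_equiv_eq_comap_symm e (Submonoid.closure B)
      have h2 : (e : G →* H) '' B = e.symm ⁻¹' B := by
        ext x
        constructor
        · rintro ⟨b, hb, rfl⟩
          simpa using hb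
        · intro hx
          exact ⟨e.symm x, hx, by simp⟩
      have h3 := MonoidHom.map_mclosure (e : G →* H) B
      rw [h2] at h3
      rw [← h3]
      exact (congrArg (fun M : Submonoid H => (M : Set H)) h1).symm
    show RatSet (e.symm ⁻¹' (Submonoid.closure B : Set G))
    rw [h]
    exact RatSet.star hB

open Pool.Agent.RatBool in
theorem of_ratSet {H : Type} [Group H] (e : G ≃* H) {X : Set H} (hX : RatSet X) :
    e ⁻¹' X ∈ Rat G := by
  induction hX with
  | empty => exact Rat.finite Set.finite_empty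
  | single g => exact Rat.finite ((Set.finite_singleton g).preimage e.injective.injOn)
  | union _ _ h1 h2 => exact Rat.union h1 h2
  | @mul X Y _ _ h1 h2 =>
    have h : e ⁻¹' (X * Y) = (e ⁻¹' X) * (e ⁻¹' Y) := by
      ext x
      constructor
      · rintro ⟨b, hb, c, hc, hx⟩
        refine ⟨e.symm b, by simpa using hb, e.symm c, by simpa using hc, ?_⟩
        have hx' : b * c = e x := hx
        show e.symm b * e.symm c = x
        rw [← map_mul, hx', MulEquiv.symm_apply_apply]
      · rintro ⟨b, hb, c, hc, rfl⟩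
        exact ⟨e b, hb, e c, hc, (map_mul e b c).symm⟩
    rw [h]
    exact Rat.mul h1 h2
  | @star X _ h1 =>
    have h : e ⁻¹' (Submonoid.closure X : Set H) = (Submonoid.closure (e ⁻¹' X) : Set G) := by
      have h1 := Submonoid.map_equiv_eq_comap_symm e.symm (Submonoid.closure X)
      have h2 : (e.symm : H →* G) '' X = e ⁻¹' X := by
        ext x
        constructor
        · rintro ⟨b, hb, rfl⟩
          simpa using hb
        · intro hx
          exact ⟨e x, hx, by simp⟩
      have h3 := MonoidHom.map_mclosure (e.symm : H →* G) X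
      rw [h2] at h3
      rw [← h3]
      exact (congrArg (fun M : Submonoid G => (M : Set G)) h1).symm
    rw [h]
    exact Rat.star h1

theorem countable_of_fg (h : Group.FG G) : Countable G := by
  obtain ⟨S, hS, φ, hφ⟩ := Group.fg_iff_exists_freeGroup_hom_surjective.mp h
  have : Finite S := hS
  exact hφ.countable

/-- The main theorem in any universe, without finite generation. -/
theorem main (hs : Group.IsSolvable G) (h : ∀ A ∈ Rat G, Aᶜ ∈ Rat G) :
    Group.FG G ∧ ∃ N : Subgroup G, N.Normal ∧ N.FiniteIndex ∧ ∀ a ∈ N, ∀ b ∈ N, a * b = b * a := by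
  have hfg := fg_of h
  have hc : Countable G := countable_of_fg hfg
  refine ⟨hfg, ?_⟩
  have : Small.{0} G := Countable.toSmall G
  let e : G ≃* Shrink.{0} G := (Shrink.mulEquiv : Shrink.{0} G ≃* G).symm
  have hBA : Pool.Agent.RatBool.BA (Shrink.{0} G) := by
    intro X hX
    have h1 := to_ratSet e (h _ (of_ratSet e hX))
    have h2 : e.symm ⁻¹' (e ⁻¹' X)ᶜ = Xᶜ := by
      ext x
      simp
    rwa [h2] at h1
  have hs' : Group.IsSolvable (Shrink.{0} G) :=
    Group.isSolvable_of_surjective (f := (e : G →* Shrink.{0} G)) e.surjective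
  obtain ⟨A, hA, hAb⟩ := Pool.Agent.RatBool.main_theorem hBA hs'
  have hi : (A.comap (e : G →* Shrink.{0} G)).index ≠ 0 := by
    rw [Subgroup.index_comap_of_surjective A e.surjective]
    exact hA
  have hF : (A.comap (e : G →* Shrink.{0} G)).FiniteIndex := ⟨hi⟩
  refine ⟨(A.comap (e : G →* Shrink.{0} G)).normalCore, inferInstance,
    Subgroup.finiteIndex_normalCore _, ?_⟩
  intro a ha b hb
  have ha' : e a ∈ A := Subgroup.normalCore_le (A.comap (e : G →* Shrink.{0} G)) ha
  have hb' : e b ∈ A := Subgroup.normalCore_le (A.comap (e : G →* Shrink.{0} G)) hb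
  apply e.injective
  rw [map_mul, map_mul]
  exact hAb _ ha' _ hb'

end Pool.Agent.RatIns
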